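import Pool.Agent.Lib.MP_783f50_lc.Final

/-!
Relative to a supercompact cardinal, it is consistent with ZFC that every connected graph without
a normal spanning tree has one of the two forbidden minors of size aleph one.
-/

namespace Pool.Agent.Results.MP_783f50_lc.Consistent

open Pool.Agent.Lib.MP_2739cb_lc Pool.Agent.Lib.MP_783f50_lc

universe u

theorem result (κ : Cardinal.{u}) (hκ : IsSupercompact κ) :
    ∃ (M : Type (u + 1)) (E : M → M → Prop), IsZFC E ∧ ∃ w w₁, IsOmega E w ∧ IsOmega1 E w w₁ ∧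
      ∀ V A, IsGraph E V A → Connected E w A V → ¬ HasNST E w V A →
        (∃ U B, IsGraph E U B ∧ Connected E w B U ∧ IsAleph01 E w w₁ U B ∧ IsMinor E w U B V A) ∨
        ∃ B S, IsGraph E w₁ B ∧ Connected E w B w₁ ∧ IsStationary E w₁ S ∧ IsSGraph E w B S ∧
          IsMinor E w w₁ B V A :=
  ⟨Pool.Agent.Lib.MP_2739cb_lc.Mod (Cond κ.ord.ToType), _, ZM.zfc, _, _, ZM.hw, isOmega1,
    main_internal (dich_levy hκ)⟩

end Pool.Agent.Results.MP_783f50_lc.Consistent
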