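import Pool.Agent.Lib.MP_783f50_lc.FR.Final

/-!
In every model of ZFC, the statement that every connected graph without a normal spanning tree
has one of the two forbidden minors of size aleph one is equivalent to the Fodor-type Reflection
Principle.
-/

namespace Pool.Agent.Results.MP_783f50_lc.FodorReflection

open Pool.Agent.Lib.MP_2739cb_lc Pool.Agent.Lib.MP_783f50_lc

universe v

theorem result {M : Type v} (E : M → M → Prop) (hE : IsZFC E) (w w₁ : M) (hw : IsOmega E w)
    (hw₁ : IsOmega1 E w w₁) :
    (∀ V A, IsGraph E V A → Connected E w A V → ¬ HasNST E w V A →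
      (∃ U B, IsGraph E U B ∧ Connected E w B U ∧ IsAleph01 E w w₁ U B ∧ IsMinor E w U B V A) ∨
      ∃ B S, IsGraph E w₁ B ∧ Connected E w B w₁ ∧ IsStationary E w₁ S ∧ IsSGraph E w B S ∧
        IsMinor E w w₁ B V A) ↔ FRP E w w₁ :=
  @minors_iff_frp M (zmOf E hE w w₁ hw hw₁)

end Pool.Agent.Results.MP_783f50_lc.FodorReflection
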